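import Pool.Agent.Helper3.MX.Stkp
import Pool.Agent.Helper89.RND.Gd

/-! ENTRY OF THE SELECTION: from a deficient system of the ordinary class to a deficient system of a class of the
selection: the system over its maximal label of the window `0`, with a rounded point, and the copies of the types given
the cells of the point. -/

set_option autoImplicit false

namespace Pool.Agent.Helper3.ENT

open Finset Filter Topology Matrix Pool.Agent.Helper69.RK Pool.Agent.Helper31.EC Pool.Agent.Helper31.EC.Sp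
open Pool.Agent.Helper40.EL Pool.Agent.Helper89.LX Pool.Agent.Helper84.MT
open Pool.Agent.Helper29.MX Pool.Agent.Helper3.KL Pool.Agent.Helper3.MX
open Pool.Agent.Helper36.AM (HQ volO STO DGRu STu MCl)
open Pool.Agent.Helper3.LF (Mon)
open Pool.Agent.Helper38.NSL (NI)
open Pool.Agent.Helper24.PR (ovl)
open Pool.Agent.Helper52.SL (cv cv_dg)

noncomputable section

variable {S T : Sp} {M N D g v : ℕ} {E : ℕ → ℕ} {ι κ : Type}

/-! ### over the maximal label of the window `0` -/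

/-- the volumes over a label are not smaller -/
theorem vol_ovl [Finite ι] (s : MSys S M E ι) (l : Lab S) (hl : s.DMc 0 l) (D : ℕ) :
    s.vol D 0 ≤ (ovl s l fun i => hl (some i)).vol D 0 := by
  set t := ovl s l fun i => hl (some i) with ht
  obtain ⟨y, hy⟩ := t.exists_can D 0
  rw [← t.vol_eq hy.1]
  have h1 : (gaq s.Q D).Adf (s.cnd 0) (cm l y) := by
    refine Gau.Adf_iff.2 ⟨fun i => ?_, cm_fm (Gau.Adf.fm hy.1.1)⟩
    have h2 : Nul (l.ovr 1 one_pos) (fun k => (y k).l.leak (t.cnd 0 i k)) := Gau.Adf.dm _ hy.1.1 i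
    have h3 : (fun k => (y k).l.leak (t.cnd 0 i k)) = fun k => (y k).l.leak ((l k).up 1 one_pos (s.cnd 0 i k)) := by
      funext k
      have h4 : t.cnd 0 i k = (l k).up 1 one_pos (s.cnd 0 i k) := rel_cnd s l (fun i => hl (some i)) 0 i k
      rw [h4]
    rw [h3] at h2
    apply ((hl i).add ((l.nul_over 1 one_pos).mp h2)).of_le (Eventually.of_forall fun k => FLab.leak_nonneg _ _)
    exact Eventually.of_forall fun k => cm_leak l y k _
  refine (s.vol_le_of h1).trans ?_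
  rw [cm_vol]
  exact le_rfl

/-- the entropy over the maximal label -/
theorem H_ovl_kap [Countable ι] (s : MSys S M E ι) (hl : ∀ i, Nul S fun k => ((s.kap 0) k).leak ((s.lf i).win 0 k)) :
    H ((ovl s (s.kap 0) hl).Q.dg 1) = HQ s 0 := by
  have h1 : (ovl s (s.kap 0) hl).Q.dg 1 = up1 (s.kap 0) (s.Q.dg 1) := cv_dg (s.kap 0) s.Q 1
  rw [h1]
  rfl

/-! ### rounded points -/

theorem rd_cnd (s : MSys S M E ι) (c : ℝ) : (rd s).cnd c = s.cnd c := by
  funext i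
  rcases i with _ | i
  · funext k
    show fc (Setoid.ker ((Pool.Agent.Helper89.RAK.rnd s.Q).cellv 1 k)) = fc (Setoid.ker (s.Q.cellv 1 k))
    rw [Pool.Agent.Helper89.RND.cellv_rnd]
  · rfl

theorem vol_rd_le [Finite ι] (s : MSys S M E ι) (D : ℕ) (c : ℝ) : s.vol D c ≤ (rd s).vol D c := by
  obtain ⟨x, hx⟩ := (rd s).exists_can D c
  rw [← (rd s).vol_eq hx.1]
  have h1 := hx.1.1
  rw [rd_cnd] at h1
  have h2 : (gaq s.Q D).Adf (s.cnd c) x := (Pool.Agent.Helper89.RND.adf_near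
    (Pool.Agent.Helper89.RND.cls_rnd s.Q)).mp h1
  refine (s.vol_le_of h2).trans_eq ?_
  exact (Pool.Agent.Helper89.RND.adf_vol (Pool.Agent.Helper89.RND.cls_rnd s.Q) h2).symm

theorem nrq_rd (s : MSys S M E ι) : Nrq s (rd s) := by
  refine ⟨fun i => Eventually.of_forall fun k => rfl, fun _ => 1, S.Sub_const zero_le_one,
    Eventually.of_forall fun k ω _ j => ?_⟩
  rw [one_mul]
  exact Pool.Agent.Helper89.RAK.rnd_close s.Q k ω j

theorem lt_rd (s : MSys S M E ι) : Lt (rd s) := by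
  refine Eventually.of_forall fun k ω ω' _ _ _ d => ?_
  have h1 : (Pool.Agent.Helper89.RAK.rnd s.Q).cellv 1 k ω = (Pool.Agent.Helper89.RAK.rnd s.Q).cellv 1 k ω' := d
  rw [Pool.Agent.Helper89.RND.cellv_rnd] at h1
  funext i
  have h2 : ⌊s.Q.v k ω i / S.dl 1 k⌋ = ⌊s.Q.v k ω' i / S.dl 1 k⌋ := congrFun h1 i
  show (⌊s.Q.v k ω i / S.dl 1 k⌋ : ℝ) * S.dl 1 k = (⌊s.Q.v k ω' i / S.dl 1 k⌋ : ℝ) * S.dl 1 k
  rw [h2]

theorem pull_id (A : Part S) : A.pull (Pj.id S) = A := by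
  funext k
  show ((Pj.id S).fp k).map (A k) = A k
  induction A k using fc_ind
  rfl

theorem inv_rd {s : MSys S M E ι} (h : Inv v s) : Inv v (rd s) := by
  refine ⟨h.1, fun i => ud_of_pj (h.2 i) (Pj.id S) ?_ fun c => ?_⟩
  · refine ⟨fun _ => 1, S.Sub_const zero_le_one, Eventually.of_forall fun k ω _ j => ?_⟩
    rw [one_mul]
    exact Pool.Agent.Helper89.RAK.rnd_close s.Q k ω j
  · rw [pull_id]
    rfl

/-! ### copies of the types given the cells of the point -/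

theorem lt_dbl {s : MSys S M E ι} (h : Lt s) : Lt (dbl s (cel s.Q) (cel_dtm s.Q)) := by
  filter_upwards [h] with k hk ω ω' a b c d
  have h1 := (cpd (cel s.Q)).p1.fp k |>.supp ω a
  have h2 := (cpd (cel s.Q)).p1.fp k |>.supp ω' b
  have h3 := ((cpd (cel s.Q)).p1.hZ k ω ω' a b).1 c
  have h4 : s.Q.cellv 1 k ((cpd (cel s.Q)).p1.π k ω) = s.Q.cellv 1 k ((cpd (cel s.Q)).p1.π k ω') := by
    have h5 : ((cpd (cel s.Q)).p1.vv s.Q).cellv 1 k ω = ((cpd (cel s.Q)).p1.vv s.Q).cellv 1 k ω' := d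
    rw [vv_cellv] at h5
    exact h5
  exact hk _ _ h1 h2 h3 h4

/-- the windows of a type and of its copy are independent given the cells of the point -/
theorem ni_dbl (s : MSys S M E ι) (i : ι) (c : ℝ) :
    NI (((dbl s (cel s.Q) (cel_dtm s.Q)).lf (Sum.inl i)).win c) (((dbl s (cel s.Q) (cel_dtm s.Q)).lf (Sum.inr i)).win c)
      (pcd (dbl s (cel s.Q) (cel_dtm s.Q)).Q) := by
  rw [dbl_win_inl, dbl_win_inr]
  have h1 : pcd (dbl s (cel s.Q) (cel_dtm s.Q)).Q = (pcd s.Q).pull (q1 (cel s.Q)) := pcd_pull _ s.Q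
  rw [h1]
  have h2 : (fun k => I ((((s.lf i).win c).pull (q1 (cel s.Q))) k) ((((s.lf i).win c).pull (q2 (cel s.Q))) k)
      (((pcd s.Q).pull (q1 (cel s.Q))) k)) = fun _ => 0 := funext fun k => cpd_indep (cel s.Q) k _ _
  show Nul _ _
  rw [h2]
  exact Nul_zero _

theorem H_dbl (s : MSys S M E ι) (C : ∀ k, (S.F k).Ω → Fin M → ℤ) (hC : Dtm s.Q C) :
    H ((dbl s C hC).Q.dg 1) = H (s.Q.dg 1) := by
  have h4 : (dbl s C hC).Q.dg 1 = (q1 C).map (s.Q.dg 1) := ((q1 C).map_dg s.Q 1).symm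
  rw [h4, (q1 C).H_map]

theorem vol_dbl [Finite ι] (s : MSys S M E ι) (C : ∀ k, (S.F k).Ω → Fin M → ℤ) (hC : Dtm s.Q C) (D : ℕ) (c : ℝ) :
    s.vol D c ≤ (dbl s C hC).vol D c := s.vol_add_ge (q1 C) _ D c

/-! ### the member -/

/-- A DEFICIENT SYSTEM of a class of the selection, all of whose type-labels are visible -/
theorem exists_mem {A : MCl N} {C : ℕ → MCl N} (hC : Okc N A C) (hE : Ent A C) (h : ¬ STO N (Cv A v)) :
    ∃ (m g r : ℕ) (S : Sp) (s : MSys S N (lin g) (Fin r)) (i j : Fin r) (δ : ℝ), 1 ≤ g ∧ i ≠ j ∧ 0 < δ ∧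
      C m S g r s ∧ Inv v s ∧ NI ((s.lf i).win 1) ((s.lf j).win 1) (pcd s.Q) ∧
        ∀ D, H (s.Q.dg 1) + δ ≤ s.vol D 0 := by
  unfold STO at h
  push Not at h
  obtain ⟨S, g0, r, s0, hs0, hd0⟩ := h
  -- the degrees
  set g := g0 + 1 with hg0
  have hg : ∀ D, lin g0 D ≤ lin g D := fun D => Nat.mul_le_mul_right _ (Nat.le_succ _)
  set s : MSys S N (lin g) (Fin r) := ⟨s0.Q, fun i => (s0.lf i).monoE hg⟩ with hsd
  have hs : A S g r s ∧ Inv v s := ⟨hC.oA.add S g0 r s0 hs0.1 S (Pj.id S) g r hg (fun i => (s0.lf i).monoE hg) id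
    fun i => rfl, hs0.2⟩
  have hd : HQ s 0 < volO s 0 := hd0
  -- over the maximal label
  have hk := (s.kap_isKap 0).1
  set s1 := ovl s (s.kap 0) fun i => hk (some i) with hs1
  have a1 : A _ g r s1 := hC.oA.bas S g r s hs.1 (s.kap 0) hk
  have i1 : Inv v s1 := inv_bas hs.2 _ _
  have v1 : ∀ D, s.vol D 0 ≤ s1.vol D 0 := vol_ovl s (s.kap 0) hk
  have e1 : H (s1.Q.dg 1) = HQ s 0 := H_ovl_kap s _
  -- the rounded point
  set s2 := rd s1 with hs2
  have a2 : A _ g r s2 := hC.oA.pnt _ g r s1 s2 a1 (nrq_rd s1)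
  have i2 : Inv v s2 := inv_rd i1
  have v2 : ∀ D, s1.vol D 0 ≤ s2.vol D 0 := fun D => vol_rd_le s1 D 0
  have e2 : H (s2.Q.dg 1) = H (s1.Q.dg 1) := by
    have h1 : s2.Q.dg 1 = s1.Q.dg 1 := Pool.Agent.Helper89.RND.dg_rnd s1.Q
    rw [h1]
  have l2 : Lt s2 := lt_rd s1
  -- the copies of the types
  set s3 := dbl s2 (cel s2.Q) (cel_dtm s2.Q) with hs3
  set e : Fin (r + r) ≃ Fin r ⊕ Fin r := finSumFinEquiv.symm with he
  set s4 := s3.ren e with hs4
  have a4 : A _ g (r + r) s4 := enM_dbl hC.oA.add g (cel_dtm s2.Q) (enM_of hC.oA.add a2) (r + r) e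
  have i4 : Inv v s4 := inv_ren (inv_dbl (cel_dtm s2.Q) i2) e
  have v4 : ∀ D, s2.vol D 0 ≤ s4.vol D 0 := fun D => by
    rw [hs4, s3.vol_ren e.surjective D 0]
    exact vol_dbl s2 (cel s2.Q) (cel_dtm s2.Q) D 0
  have e4 : H (s4.Q.dg 1) = H (s2.Q.dg 1) := H_dbl s2 (cel s2.Q) (cel_dtm s2.Q)
  have l4 : Lt s4 := lt_dbl l2
  obtain ⟨i⟩ := hs.2.1
  have n4 : NI ((s4.lf (e.symm (Sum.inl i))).win 1) ((s4.lf (e.symm (Sum.inr i))).win 1) (pcd s4.Q) := by
    have h1 := ni_dbl s2 i 1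
    have h2 : s4.lf (e.symm (Sum.inl i)) = s3.lf (Sum.inl i) := congrArg s3.lf (e.apply_symm_apply _)
    have h3 : s4.lf (e.symm (Sum.inr i)) = s3.lf (Sum.inr i) := congrArg s3.lf (e.apply_symm_apply _)
    rw [h2, h3]
    exact h1
  obtain ⟨m, hm⟩ := hE _ g (r + r) s4 a4 l4 ⟨_, _, n4⟩
  refine ⟨m, g, r + r, _, s4, e.symm (Sum.inl i), e.symm (Sum.inr i), volO s 0 - HQ s 0, Nat.succ_le_succ (Nat.zero_le _),
    ?_, sub_pos.2 hd, hm, i4, n4, fun D => ?_⟩
  · intro h1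
    have h2 := e.symm.injective h1
    exact absurd h2 Sum.inl_ne_inr
  · rw [e4, e2, e1]
    have h1 := Pool.Agent.Helper84.MT.volO_le s D 0
    linarith [v1 D, v2 D, v4 D]

end

end Pool.Agent.Helper3.ENT
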