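import Pool.Agent.Helper3.ENT.Pnf

/-! SYSTEMS OF LEAVES: the penalized volume plus the entropy of the point. In a class closed under diagonals and events
with a member whose entropy is less than its volume there is a subclass of the same kind ALL of whose members have this
property. -/

set_option autoImplicit false

namespace Pool.Agent.Helper3.ENT

open Finset Filter Topology Matrix Pool.Agent.Helper69.RK Pool.Agent.Helper31.EC Pool.Agent.Helper31.EC.Sp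
open Pool.Agent.Helper40.EL Pool.Agent.Helper89.LX Pool.Agent.Helper59.EV Pool.Agent.Helper49.MD
open Pool.Agent.Helper52.GF Pool.Agent.Helper84.MT Pool.Agent.Helper3.LF

noncomputable section

variable {S T : Sp} {M : ℕ} {E : ℕ → ℕ} {ι : Type} [Encodable ι] [Finite ι]

/-- the entropy of the point, as a direct value -/
def hpt (M : ℕ) (E : ℕ → ℕ) (ι : Type) [Encodable ι] : Dv (KM M ι) (isMc M E ι) :=
  hwv (pql M E ι 1) (Pt.top (KM M ι) (isMc M E ι)).pu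

theorem hpt_f {s : MSys S M E ι} {x : (KM M ι).Ob S} (h : Giv s x) : (hpt M E ι).f x = H (s.Q.dg 1) := by
  have e : s.Q.dg 1 = cl (s.Q.bdd 1).toInf := io_eq (s.Q.bdd 1)
  rw [e]
  show ul _ = ul _
  refine ul_congr ?_
  filter_upwards [pql_pt h 1] with k hk
  have e1 : (hpt M E ι).v (S.F k) (x k) = Pool.Agent.Helper31.EC.h ((pql M E ι 1).pt x k) (fc ⊤) / (S.F k).n := rfl
  rw [e1, hk]
  have e2 : Pool.Agent.Helper31.EC.h (pcr s.Q 1 k) (fc ⊤) = H (pcr s.Q 1 k) := by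
    rw [fc_top]
    exact h_bot _
  have e3 : S.tr k ⊓ (S.F k).Z = (S.F k).Z := top_inf_eq _
  rw [e2]
  show _ = (S.F k).e (Setoid.ker (s.Q.cellv 1 k)) (S.tr k ⊓ (S.F k).Z) / (S.F k).n
  rw [e3]
  rfl

/-- THE FUNCTIONAL: complement of the penalized volume plus the entropy of the point -/
def phi (M : ℕ) (E : ℕ → ℕ) (ι : Type) [Encodable ι] (D : ℕ) {η : ℝ} (h0 : 0 < η) : Fnl (isMc M E ι) :=
  fadd (gvN (gkq M E ι D) (fvq M E ι D).vk (cdm M ι 1 0) isMc_imCl h0) (dvN isMc_imCl (hpt M E ι))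

/-- THE SUBCLASS -/
theorem exists_dfn {C : (KM M ι).Pd} (hC : Cls C) (hM : ∀ S x, C S x → isMc M E ι S x) (D : ℕ) {δ : ℝ} (hδ : 0 < δ)
    {S₀ : Sp} {s₀ : MSys S₀ M E ι} (hs : C S₀ (ob s₀)) (hd : H (s₀.Q.dg 1) + δ ≤ s₀.vol D 0) :
    ∃ C' : (KM M ι).Pd, Cls C' ∧ (∀ S x, C' S x → C S x) ∧
      ∀ (S : Sp) (s : MSys S M E ι) (x : (KM M ι).Ob S), Giv s x → C' S x → H (s.Q.dg 1) + δ / 2 ≤ s.vol D 0 := by
  have hx₀ := hM _ _ hs
  -- the penalty
  have h1 := gvf_tendsto (V := (fvq M E ι D).vk) (gkq M E ι D) (cdm M ι 1 0) hx₀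
  obtain ⟨j, hj⟩ := (h1.eventually (gt_mem_nhds (show gvf (gkq M E ι D) (fvq M E ι D).vk (cdm M ι 1 0) (ob s₀) <
    gvf (gkq M E ι D) (fvq M E ι D).vk (cdm M ι 1 0) (ob s₀) + δ / 2 by linarith))).exists
  have hη := inv_pos_j j
  set η : ℝ := 1 / ((j : ℝ) + 1) with hηd
  have key : ∀ (S : Sp) (s : MSys S M E ι) (x : (KM M ι).Ob S), Giv s x →
      gvf (gkq M E ι D) (fvq M E ι D).vk (cdm M ι 1 0) x = M - s.vol D 0 := fun S s x h => by
    rw [vol_vlm h D 0]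
    unfold vlm gvm
    ring
  obtain ⟨v, h2, h3⟩ := stage_max hC ((phi M E ι D hη).mono hM)
  refine ⟨_, h2, fun S x hx => hx.1, fun S s x hg hx => ?_⟩
  have h4 : (phi M E ι D hη).f S₀ (ob s₀) ≤ v := h3 _ _ hs
  have h5 : (phi M E ι D hη).f S x = v := hx.2
  have e1 : (phi M E ι D hη).f S₀ (ob s₀) = ((fvq M E ι D).vk.M - gvl (gkq M E ι D) (fvq M E ι D).vk (cdm M ι 1 0) η
    (ob s₀)) + ((hpt M E ι).M - (hpt M E ι).f (ob s₀)) := rfl
  have e2 : (phi M E ι D hη).f S x = ((fvq M E ι D).vk.M - gvl (gkq M E ι D) (fvq M E ι D).vk (cdm M ι 1 0) η x) +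
    ((hpt M E ι).M - (hpt M E ι).f x) := rfl
  have h6 := gvf_le_gvl (V := (fvq M E ι D).vk) (gkq M E ι D) (cdm M ι 1 0) hη (hM S x hx.1)
  rw [key S s x hg] at h6
  rw [key S₀ s₀ (ob s₀) (Giv_ob s₀)] at hj
  rw [hpt_f (Giv_ob s₀)] at e1
  rw [hpt_f hg] at e2
  linarith

end

end Pool.Agent.Helper3.ENT
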