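import Pool.Agent.Helper3.ENT.Mem
import Pool.Agent.Helper3.ENT.Dfn
import Pool.Agent.Helper8.CPY.Trp
import Pool.Agent.Helper52.MW.Ime

/-! ENTRY OF THE SELECTION: a class of deficient systems, closed under diagonals and events, all of whose type-labels are
visible. -/

set_option autoImplicit false

namespace Pool.Agent.Helper3.ENT

open Finset Filter Topology Matrix Pool.Agent.Helper69.RK Pool.Agent.Helper31.EC Pool.Agent.Helper31.EC.Sp
open Pool.Agent.Helper40.EL Pool.Agent.Helper89.LX Pool.Agent.Helper59.EV Pool.Agent.Helper49.MD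
open Pool.Agent.Helper84.MT Pool.Agent.Helper52.GF
open Pool.Agent.Helper29.MX (TLb Okc Ent Cv Ud)
open Pool.Agent.Helper36.AM (HQ volO STO DGRu STu MCl)
open Pool.Agent.Helper38.NSL (NI)

noncomputable section

variable {S T : Sp} {M N D g v : ℕ} {E : ℕ → ℕ} {ι κ : Type}

/-! ### a transversal pair of types for the cells of the point -/

/-- the types `i`, `j` are a transversal pair for the cells of the point -/
def Tri (i j : ι) (s : MSys S M E ι) : Prop := NI ((s.lf i).win 1) ((s.lf j).win 1) (pcd s.Q)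

/-- TYPE-LABELS ARE ORDINARY LABELS -/
theorem Tri.dmc {i j : ι} {s : MSys S M E ι} (h : Tri i j s) {c : ℝ} (hc : c ≤ 1) {l : Lab S} (hl : TLb s c l) :
    s.DMc c l := by
  intro a
  rcases a with _ | a
  · exact Pool.Agent.Helper8.CPY.nul_leak_of_NI h
      (Pool.Agent.Helper81.CPY.nul_leak_mono ((s.lf i).win_mono hc) (hl i))
      (Pool.Agent.Helper81.CPY.nul_leak_mono ((s.lf j).win_mono hc) (hl j))
  · exact hl a

theorem Tri.tlb_iff {i j : ι} {s : MSys S M E ι} (h : Tri i j s) {c : ℝ} (hc : c ≤ 1) {l : Lab S} :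
    TLb s c l ↔ s.DMc c l := ⟨h.dmc hc, fun h1 a => h1 (some a)⟩

/-- events of extensions -/
theorem Tri.im {i j : ι} {s : MSys S M E ι} (h : Tri i j s) (p : Pj T S) (A : ∀ k, (T.F k).Ω → Prop)
    (hA : 0 < ul (T.pr A)) : Tri i j (s.im p A hA) := by
  have h1 := NI.im h p A hA
  have e1 : ((s.im p A hA).lf i).win 1 = ((s.lf i).win 1).im p A := win_im p A hA (s.lf i) 1
  have e2 : ((s.im p A hA).lf j).win 1 = ((s.lf j).win 1).im p A := win_im p A hA (s.lf j) 1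
  show NI _ _ _
  rw [e1, e2]
  exact h1

/-- the information of the pair, finite data -/
def triF (i j : ι) (F : FSp) (x : FMs F.Ω M ι) : ℝ :=
  I (FMs.cnd F x 1 (some i)) (FMs.cnd F x 1 (some j)) (FMs.cnd F x 1 none)

/-- diagonals -/
theorem tri_dg {P : ∀ S : Sp, MSys S M E ι → Prop} (hP : DiagCl (lft P)) (i j : ι) :
    DiagCl (lft fun S s => P S s ∧ Tri i j s) := by
  intro S x hx
  obtain ⟨E1, hE1, h1⟩ := hP S x fun q => by
    obtain ⟨s, e, h⟩ := hx q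
    exact ⟨s, e, h.1⟩
  have hq : ∀ (q a : ℕ), ∀ᶠ k in UF, triF i j ((S q).F k) (x q k) ≤ 1 / ((a : ℝ) + 1) * ((S q).F k).n := by
    intro q a
    obtain ⟨s, e, h⟩ := hx q
    have h3 : ∀ᶠ k in UF, I ((s.lf i).win 1 k) ((s.lf j).win 1 k) (pcd s.Q k) / ((S q).F k).n < 1 / ((a : ℝ) + 1) :=
      (show Tendsto _ _ _ from h.2).eventually (gt_mem_nhds (by positivity))
    filter_upwards [h3, e] with k a1 a2
    have hn := ((S q).F k).pos
    rw [← a2]
    rw [div_lt_iff₀ hn] at a1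
    exact a1.le
  refine ⟨fun a q k => E1 a q k ∧ triF i j ((S q).F k) (x q k) ≤ 1 / ((a : ℝ) + 1) * ((S q).F k).n,
    fun a q => (hE1 a q).and (hq q a), fun J hJ => ?_⟩
  obtain ⟨t, e, ht⟩ := h1 J hJ.left
  refine ⟨t, e, ht, ?_⟩
  refine Pool.Agent.Helper47.FN.nul_of (fun k => I_nonneg _ _ _) fun δ hδ => ?_
  obtain ⟨a, ha⟩ := exists_nat_one_div_lt hδ
  filter_upwards [hJ.right.slow a, e] with k a1 a2
  have hn := ((S (J k)).F k).pos
  have a3 : I ((t.lf i).win 1 k) ((t.lf j).win 1 k) (pcd t.Q k) = triF i j ((S (J k)).F k) (x (J k) k) := by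
    have a4 : (KM M ι).dgo S x J hJ.lim k = x (J k) k := rfl
    rw [← a4, ← a2]
    rfl
  have a6 : I ((t.lf i).win 1 k) ((t.lf j).win 1 k) (pcd t.Q k) ≤ 1 / ((a : ℝ) + 1) * ((S (J k)).F k).n := by
    rw [a3]
    exact a1
  exact a6.trans (mul_le_mul_of_nonneg_right ha.le hn.le)

/-! ### unit directions -/

/-- INV(v) as a property on all events of all extensions -/
theorem inv_im {s : MSys S M E ι} (h : Pool.Agent.Helper29.MX.Inv v s) (p : Pj T S) (A : ∀ k, (T.F k).Ω → Prop)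
    (hA : 0 < ul (T.pr A)) : Pool.Agent.Helper29.MX.Inv v (s.im p A hA) := by
  refine ⟨h.1, fun i => ?_⟩
  have h1 : Pool.Agent.Helper29.MX.AllE (fun S (t : MSys S M E ι) _ => ∀ (c c' : ℝ), 0 ≤ c → c ≤ c' → c' ≤ 1 →
      (v : ℝ) * (c' - c) ≤ ul (fun k => Pool.Agent.Helper31.EC.h (fc (Setoid.ker (t.Q.cellv c' k)))
        ((t.lf i).win c k) / (S.F k).n)) S s (Pool.Agent.Helper29.MX.rbot S) := h.2 i
  have h2 := Pool.Agent.Helper52.MW.AllE_im h1 p A hA
  exact h2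

/-! ### the class -/

/-- THE SYSTEMS OF THE ENTRY -/
def Ety (C : ℕ → MCl N) (m v g r : ℕ) (i j : Fin r) : ∀ S : Sp, MSys S N (lin g) (Fin r) → Prop :=
  fun S s => (C m S g r s ∧ Pool.Agent.Helper29.MX.Inv v s) ∧ Tri i j s

/-- THE ENTRY: a class closed under diagonals and events, all members are deficient at the window `0` -/
theorem entry_of (hdg : DGRu N) (hst : ∀ m, m < N → STu m) {A : MCl N} {C : ℕ → MCl N} (hC : Okc N A C)
    (hE : Ent A C) (hI : ∀ (g r : ℕ) (P : ∀ S : Sp, MSys S N (lin g) (Fin r) → Prop), DiagCl (lft P) →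
      DiagCl (lft fun S s => P S s ∧ Pool.Agent.Helper29.MX.Inv v s)) (h : ¬ STO N (Cv A v)) :
    ∃ (m g r : ℕ) (i j : Fin r) (δ : ℝ) (P : (KM N (Fin r)).Pd), 1 ≤ g ∧ i ≠ j ∧ 0 < δ ∧ Cls P ∧
      (∀ S x, P S x → lft (Ety C m v g r i j) S x) ∧
      ∀ (S : Sp) (s : MSys S N (lin g) (Fin r)) (x : (KM N (Fin r)).Ob S), Giv s x → P S x →
        H (s.Q.dg 1) + δ ≤ volO s 0 := by
  obtain ⟨m, g, r, S, s, i, j, δ, hg1, hij, hδ, hm, hi, hn, hd⟩ := exists_mem hC hE h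
  obtain ⟨D, hD⟩ := hdg hst g
  have hcl : Cls (lft (Ety C m v g r i j)) := by
    refine ⟨tri_dg (hI g r _ (hC.dg m g r)) i j, ?_, lft_inv _, S, ob s, lft_ob ⟨⟨hm, hi⟩, hn⟩⟩
    rintro S' x ⟨t, e, ht⟩ T p A hA
    refine ⟨t.im p A hA, ?_, ⟨hC.im m S' g r t ht.1.1 T p A hA, inv_im ht.1.2 p A hA⟩, ht.2.im p A hA⟩
    filter_upwards [e] with k hk
    have h1 : ob (t.im p A hA) k = (KM N (Fin r)).imo (ob t) p A k := rfl
    rw [h1]
    show (KM N (Fin r)).im (p.fp k) (A k) (ob t k) = (KM N (Fin r)).im (p.fp k) (A k) (x k)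
    rw [hk]
  obtain ⟨P, h1, h2, h3⟩ := exists_dfn hcl (fun S x hx => isM_isMc (lft_isM hx)) D hδ
    (show lft (Ety C m v g r i j) S (ob s) from lft_ob ⟨⟨hm, hi⟩, hn⟩) (hd D)
  refine ⟨m, g, r, i, j, δ / 2, P, hg1, hij, half_pos hδ, h1, h2, fun S' t x hg hx => ?_⟩
  exact (h3 S' t x hg hx).trans (hD D le_rfl r S' t)

end

end Pool.Agent.Helper3.ENT
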