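import Pool.Agent.Helper52.GF.Tt
import Pool.Agent.Helper52.GF.Dir

/-! PENALIZED VALUES of objects: continuous along diagonals, superadditive over events; so their complements are
functionals whose maximum is attained on a subclass closed under diagonals and events. -/

set_option autoImplicit false

namespace Pool.Agent.Helper3.ENT

open Finset Filter Topology Matrix Pool.Agent.Helper69.RK Pool.Agent.Helper31.EC Pool.Agent.Helper31.EC.Sp
open Pool.Agent.Helper40.EL Pool.Agent.Helper89.LX Pool.Agent.Helper59.EV Pool.Agent.Helper49.MD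
open Pool.Agent.Helper52.GF

noncomputable section

variable {K : FK} {B : K.Pd}

/-! ### sums -/

theorem fnl_UB (Φ : Fnl B) {S : ℕ → Sp} {x : ∀ j, K.Ob (S j)} (hx : ∀ j, B (S j) (x j)) (J : ℕ → ℕ) :
    UB (fun k => Φ.f (S (J k)) (x (J k))) :=
  UB_of_nonneg_le (Eventually.of_forall fun _ => Φ.nn _ _ (hx _)) (Eventually.of_forall fun _ => Φ.le _ _ (hx _))

/-- the sum of two functionals -/
def fadd (Φ Ψ : Fnl B) : Fnl B where
  f := fun S x => Φ.f S x + Ψ.f S x
  M := Φ.M + Ψ.M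
  nn := fun S x hx => add_nonneg (Φ.nn S x hx) (Ψ.nn S x hx)
  le := fun S x hx => add_le_add (Φ.le S x hx) (Ψ.le S x hx)
  ev := fun S x y hx e => by rw [Φ.ev S x y hx e, Ψ.ev S x y hx e]
  usc := by
    intro S x hx
    obtain ⟨E1, hE1, h1⟩ := Φ.usc S x hx
    obtain ⟨E2, hE2, h2⟩ := Ψ.usc S x hx
    refine ⟨fun i j k => E1 i j k ∧ E2 i j k, fun i j => (hE1 i j).and (hE2 i j), fun J hd => ?_⟩
    have e : ul (fun k => Φ.f (S (J k)) (x (J k)) + Ψ.f (S (J k)) (x (J k))) =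
        ul (fun k => Φ.f (S (J k)) (x (J k))) + ul (fun k => Ψ.f (S (J k)) (x (J k))) :=
      ul_eq ((ul_tendsto (fnl_UB Φ hx J)).add (ul_tendsto (fnl_UB Ψ hx J)))
    rw [e]
    exact add_le_add (h1 J hd.left) (h2 J hd.right)
  spl := fun S x hx T p E hE hE' => by
    have h1 := Φ.spl S x hx T p E hE hE'
    have h2 := Ψ.spl S x hx T p E hE hE'
    have e : ul (T.pr E) * (Φ.f _ (K.imo x p E) + Ψ.f _ (K.imo x p E)) + (1 - ul (T.pr E)) *
        (Φ.f _ (K.imo x p fun k ω => ¬ E k ω) + Ψ.f _ (K.imo x p fun k ω => ¬ E k ω)) =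
        (ul (T.pr E) * Φ.f _ (K.imo x p E) + (1 - ul (T.pr E)) * Φ.f _ (K.imo x p fun k ω => ¬ E k ω)) +
        (ul (T.pr E) * Ψ.f _ (K.imo x p E) + (1 - ul (T.pr E)) * Ψ.f _ (K.imo x p fun k ω => ¬ E k ω)) := by ring
    rw [e]
    exact add_le_add h1 h2
  typ := fun S x hx T p E ht => add_le_add (Φ.typ S x hx T p E ht) (Ψ.typ S x hx T p E ht)

/-! ### the maximum is attained -/

/-- THE MAXIMUM of a functional over a class is attained on a subclass closed under diagonals and events -/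
theorem stage_max {C : K.Pd} (hC : Cls C) (Φ : Fnl C) :
    ∃ v : ℝ, Cls (fun S x => C S x ∧ Φ.f S x = v) ∧ ∀ S x, C S x → Φ.f S x ≤ v := by
  have hM : 0 ≤ Φ.M := Φ.M_nonneg hC.ne
  have hpos : 0 < Φ.M + 1 := by linarith
  obtain ⟨S0, u, hu, hr⟩ := exists_rigid C hC.dg hC.ne (fun _ S x => Φ.f S x / (Φ.M + 1)) (by
    intro q S x hx
    obtain ⟨E, hE, h1⟩ := Φ.usc S x hx
    refine ⟨E, hE, fun J hd => ?_⟩
    have h2 : ul (fun k => Φ.f (S (J k)) (x (J k)) / (Φ.M + 1)) = ul (fun k => Φ.f (S (J k)) (x (J k))) / (Φ.M + 1) :=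
      ul_eq ((ul_tendsto (fnl_UB Φ hx J)).div_const _)
    show ul (fun k => Φ.f (S (J k)) (x (J k)) / (Φ.M + 1)) ≤ _ / _
    rw [h2]
    exact div_le_div_of_nonneg_right (h1 J hd) hpos.le) 1
    (fun q S x hx => div_nonneg (Φ.nn S x hx) hpos.le)
    (fun q S x hx => by
      rw [div_le_one hpos]
      linarith [Φ.le S x hx])
  have hr' : ∀ (S₁ : Sp) (x₁ : K.Ob S₁) (S₂ : Sp) (x₂ : K.Ob S₂) (p : ℝ), C S₁ x₁ → C S₂ x₂ →
      0 < p → p ≤ 1 → (Φ.f S0 u ≤ p * Φ.f S₁ x₁ + (1 - p) * Φ.f S₂ x₂) → Φ.f S₁ x₁ = Φ.f S0 u := by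
    intro S₁ x₁ S₂ x₂ p a b c d h
    have h3 := hr S₁ x₁ S₂ x₂ p a b c d (fun _ => by
      have h4 := div_le_div_of_nonneg_right h hpos.le
      refine h4.trans (le_of_eq ?_)
      ring) 0
    exact (div_left_inj' hpos.ne').mp h3
  have key : ∀ (S : Sp) (s : K.Ob S), C S s → Φ.f S0 u ≤ Φ.f S s → Φ.f S s = Φ.f S0 u := by
    intro S s hs h
    refine hr' S s S s 1 hs hs one_pos le_rfl ?_
    linarith
  have heq : (fun (S : Sp) (s : K.Ob S) => C S s ∧ Φ.f S s = Φ.f S0 u) =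
      fun (S : Sp) (s : K.Ob S) => C S s ∧ ∀ _ : ℕ, Φ.f S0 u ≤ Φ.f S s := by
    funext S s
    apply propext
    exact ⟨fun h => ⟨h.1, fun _ => h.2.ge⟩, fun h => ⟨h.1, key S s h.1 (h.2 0)⟩⟩
  refine ⟨Φ.f S0 u, ⟨?_, ?_, fun S x y e hx => ⟨hC.ev S x y e hx.1, (Φ.ev S x y hx.1 e).trans hx.2⟩, S0, u, hu, rfl⟩,
    fun S x hx => ?_⟩
  · rw [heq]
    exact diagCl_ge hC.dg (fun _ => Φ) _
  · intro S s hs T p E hE
    have hs1 := hC.im S s hs.1 T p E hE
    refine ⟨hs1, ?_⟩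
    rcases typ_or E with ht | hE'
    · exact key _ _ hs1 (hs.2.ge.trans (Φ.typ S s hs.1 T p E ht))
    · exact hr' _ (K.imo s p E) _ (K.imo s p (fun k ω => ¬ E k ω)) (ul (T.pr E)) hs1
        (hC.im S s hs.1 T p _ hE') hE (ul_pr_le_one E) (hs.2.ge.trans (Φ.spl S s hs.1 T p E hE hE'))
  · by_contra h
    push Not at h
    exact absurd (key S x hx h.le) h.ne'

/-! ### penalized values -/

section pen

variable {ι κ : Type} [Fintype ι] [DecidableEq ι] [Encodable κ]
variable (G : Gk K B ι) (V : Vk K B ι G.C) (A : Cd K κ)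

variable {V} in
/-- superadditivity over events, with the same penalty -/
theorem gvl_glue {η : ℝ} (h0 : 0 < η) {S : Sp} {x : K.Ob S} {T : Sp} (p : Pj T S) (E : ∀ k, (T.F k).Ω → Prop)
    (hB : ImCl B) (hx : B S x) (hE : 0 < ul (T.pr E)) (hE' : 0 < ul (T.pr fun k ω => ¬ E k ω)) :
    ul (T.pr E) * gvl G V A η (K.imo x p E) + (1 - ul (T.pr E)) * gvl G V A η (K.imo x p fun k ω => ¬ E k ω) ≤
      gvl G V A η x := by
  have hx1 := hB S x hx T p E hE
  have hx2 := hB S x hx T p _ hE'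
  have t1 := ((ul_tendsto (Sp.UB_pr E)).mul (ul_tendsto (gvo_UB G A h0 (ebd G V hx1)))).add
    (((ul_tendsto (Sp.UB_pr E)).const_sub 1).mul (ul_tendsto (gvo_UB G A h0 (ebd G V hx2))))
  have t2 := (ul_tendsto (gvo_UB G A h0 (ebd G V hx))).add (S.div_n_tendsto (V.e + nus η / η))
  rw [add_zero] at t2
  refine le_of_tendsto_of_tendsto t1 t2 ?_
  filter_upwards [ebd G V hx] with k hk
  exact gvo_glue G A h0 (p.fp k) (E k) hk

variable {V} in
/-- typical events -/
theorem gvl_typ {η : ℝ} (h0 : 0 < η) {S : Sp} {x : K.Ob S} {T : Sp} (p : Pj T S) (E : ∀ k, (T.F k).Ω → Prop)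
    (hB : ImCl B) (hx : B S x) (ht : Typ E) : gvl G V A η (K.imo x p E) ≤ gvl G V A η x := by
  have hE := Sp.ul_pr_typ_pos E ht
  have hx1 := hB S x hx T p E hE
  have tp := (Typ_iff E).mp ht
  have t1 := (tp.mul (ul_tendsto (gvo_UB G A h0 (ebd G V hx1)))).add ((tp.const_sub 1).mul_const (-(2 / η)))
  have t2 := (ul_tendsto (gvo_UB G A h0 (ebd G V hx))).add (S.div_n_tendsto (V.e + nus η / η))
  rw [sub_self, zero_mul, one_mul, add_zero] at t1
  rw [add_zero] at t2
  refine le_of_tendsto_of_tendsto t1 t2 ?_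
  filter_upwards [V.le S x hx] with k hk
  have h1 := gvo_glue G A (V := V) h0 (p.fp k) (E k) (x := x k) (Bdv.l G V hk)
  have h2 := gvo_ge G A (V := V) h0 (Bdv.r G V hk (p.fp k) fun ω => ¬ E k ω)
  have h3 := mul_le_mul_of_nonneg_left h2 (sub_nonneg.mpr ((T.F k).pb_le_one (E k)))
  exact (add_le_add (le_refl _) h3).trans h1

variable {V} in
/-- PENALIZED VALUES ARE CONTINUOUS along diagonals -/
theorem gvl_cont {η : ℝ} (h0 : 0 < η) (S : ℕ → Sp) (x : ∀ j, K.Ob (S j)) (hx : ∀ j, B (S j) (x j)) :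
    ∃ E : ℕ → ℕ → ℕ → Prop, (∀ i j, ∀ᶠ k in UF, E i j k) ∧
      ∀ (J : ℕ → ℕ) (hd : Slo S E J), gvl G V A η (K.dgo S x J hd.lim) = ul (fun k => gvl G V A η (x (J k))) := by
  refine ⟨fun i j k => valE (fun F y => gvo G V A η F y) S x j k,
    fun i j => valE_ev _ S x j (gvo_UB G A h0 (ebd G V (hx j))), fun J hd => ?_⟩
  have h1 := val_tendsto (g := fun F y => gvo G V A η F y) hd.tend (hd.slow 0)
  have ub : UB (fun k => gvl G V A η (x (J k))) :=
    UB_of_nonneg_le (Eventually.of_forall fun k => gvl_nonneg G A h0 (hx _))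
      (Eventually.of_forall fun k => gvl_le G A h0 (ebd G V (hx _)))
  have h2 := h1.add (ul_tendsto ub)
  rw [zero_add] at h2
  apply ul_eq
  refine h2.congr fun k => ?_
  show gvo G V A η ((S (J k)).F k) (x (J k) k) - gvl G V A η (x (J k)) + gvl G V A η (x (J k)) = _
  rw [sub_add_cancel]
  rfl

/-- THE COMPLEMENT of the penalized value is a functional -/
def gvN (hB : ImCl B) {η : ℝ} (h0 : 0 < η) : Fnl B where
  f := fun _ x => V.M - gvl G V A η x
  M := V.M
  nn := fun S x hx => sub_nonneg.mpr (gvl_le G A h0 (ebd G V hx))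
  le := fun S x hx => sub_le_self _ (gvl_nonneg G A h0 hx)
  ev := fun S x y _ e => by rw [gvl_congr G V A η e]
  usc := by
    intro S x hx
    obtain ⟨E, hE, h1⟩ := gvl_cont (V := V) G A h0 S x hx
    refine ⟨E, hE, fun J hd => ?_⟩
    have ub : UB (fun k => gvl G V A η (x (J k))) :=
      UB_of_nonneg_le (Eventually.of_forall fun k => gvl_nonneg G A h0 (hx _))
        (Eventually.of_forall fun k => gvl_le G A h0 (ebd G V (hx _)))
    have e : ul (fun k => V.M - gvl G V A η (x (J k))) = V.M - ul (fun k => gvl G V A η (x (J k))) :=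
      ul_eq ((ul_tendsto ub).const_sub _)
    show ul (fun k => V.M - gvl G V A η (x (J k))) ≤ V.M - gvl G V A η (K.dgo S x J hd.lim)
    rw [e, h1 J hd]
  spl := fun S x hx T p E hE hE' => by
    have h1 := gvl_glue (V := V) G A h0 p E hB hx hE hE'
    have e : ul (T.pr E) * (V.M - gvl G V A η (K.imo x p E)) + (1 - ul (T.pr E)) *
        (V.M - gvl G V A η (K.imo x p fun k ω => ¬ E k ω)) = V.M - (ul (T.pr E) * gvl G V A η (K.imo x p E) +
          (1 - ul (T.pr E)) * gvl G V A η (K.imo x p fun k ω => ¬ E k ω)) := by ring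
    rw [e]
    linarith
  typ := fun S x hx T p E ht => by
    have h1 := gvl_typ (V := V) G A h0 p E hB hx ht
    linarith

end pen

/-- the complement of a direct value -/
def dvN (hB : ImCl B) (W : Dv K B) : Fnl B where
  f := fun _ x => W.M - W.f x
  M := W.M
  nn := fun S x hx => sub_nonneg.mpr ((dvF hB W).le S x hx)
  le := fun S x hx => sub_le_self _ ((dvF hB W).nn S x hx)
  ev := fun S x y hx e => by
    have h1 : W.f y = W.f x := (dvF hB W).ev S x y hx e
    rw [h1]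
  usc := by
    intro S x hx
    obtain ⟨E, hE, h1⟩ := W.cont S x hx
    refine ⟨E, hE, fun J hd => ?_⟩
    have ub : UB (fun k => W.f (x (J k))) := fnl_UB (dvF hB W) hx J
    have e : ul (fun k => W.M - W.f (x (J k))) = W.M - ul (fun k => W.f (x (J k))) :=
      ul_eq ((ul_tendsto ub).const_sub _)
    have h2 := h1 J hd
    show ul (fun k => W.M - W.f (x (J k))) ≤ W.M - W.f (K.dgo S x J hd.lim)
    rw [e, h2]
  spl := fun S x hx T p E hE hE' => by
    have hx1 := hB S x hx T p E hE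
    have hx2 := hB S x hx T p _ hE'
    have h1 := gvf_glue (V := W.vk) (G0 K B) (c0 K) p E hB hx hE hE'
    rw [W.gvf_eq hx, W.gvf_eq hx1, W.gvf_eq hx2] at h1
    have e : ul (T.pr E) * (W.M - W.f (K.imo x p E)) + (1 - ul (T.pr E)) *
        (W.M - W.f (K.imo x p fun k ω => ¬ E k ω)) = W.M - (ul (T.pr E) * W.f (K.imo x p E) +
          (1 - ul (T.pr E)) * W.f (K.imo x p fun k ω => ¬ E k ω)) := by ring
    rw [e]
    linarith
  typ := fun S x hx T p E ht => by
    have hx1 := hB S x hx T p E (Sp.ul_pr_typ_pos E ht)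
    have h1 := gvf_typ (V := W.vk) (G0 K B) (c0 K) p E hB hx ht
    rw [W.gvf_eq hx, W.gvf_eq hx1] at h1
    rw [h1]

end

end Pool.Agent.Helper3.ENT
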