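import Pool.Agent.Helper3.ENT.Ent
import Pool.Agent.Helper3.MX.Stkq
import Pool.Agent.Helper55.INV.Dg

/-! ENTRY OF THE SELECTION, without auxiliary hypotheses. -/

set_option autoImplicit false

namespace Pool.Agent.Helper3.ENT

open Finset Filter Topology Matrix Pool.Agent.Helper69.RK Pool.Agent.Helper31.EC Pool.Agent.Helper31.EC.Sp
open Pool.Agent.Helper40.EL Pool.Agent.Helper89.LX Pool.Agent.Helper59.EV Pool.Agent.Helper49.MD
open Pool.Agent.Helper84.MT Pool.Agent.Helper52.GF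
open Pool.Agent.Helper29.MX (TLb Okc Ent Cv Ud)
open Pool.Agent.Helper36.AM (HQ volO STO DGRu STu MCl)

noncomputable section

variable {N v : ℕ}

/-- THE ENTRY -/
theorem entry {A : MCl N} {C : ℕ → MCl N} (hst : ∀ m, m < N → STu m) (hC : Okc N A C) (hE : Ent A C)
    (h : ¬ STO N (Cv A v)) : ∃ (m g r : ℕ) (i j : Fin r) (δ : ℝ) (P : (KM N (Fin r)).Pd), 1 ≤ g ∧ i ≠ j ∧ 0 < δ ∧ Cls P ∧
      (∀ S x, P S x → lft (Ety C m v g r i j) S x) ∧
      ∀ (S : Sp) (s : MSys S N (lin g) (Fin r)) (x : (KM N (Fin r)).Ob S), Giv s x → P S x →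
        H (s.Q.dg 1) + δ ≤ volO s 0 :=
  entry_of (Pool.Agent.Helper3.MX.dgru_all N) hst hC hE
    (fun _ _ _ hP => Pool.Agent.Helper55.INV.and_inv_dg hP v) h

end

end Pool.Agent.Helper3.ENT
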